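import Pool.Agent.helper94.SCT.Spec

/-! # sct:INV: inversion formula for the smooth weights -/

set_option autoImplicit false

namespace Pool.Agent.SCT

open Finset ArithmeticFunction MeasureTheory
open scoped FourierTransform

private theorem INV_int (hDEC : DEC_stmt) {φ : ℝ → ℝ} (h : Sm φ) {σ : ℝ} (hσ : |σ| ≤ 2) :
    Integrable (fun τ : ℝ => Mt φ ((σ : ℂ) + (τ : ℂ) * Complex.I)) := by
  obtain ⟨hd, hk⟩ := hDEC φ h
  obtain ⟨C, hC, hb⟩ := hk 2
  have hcont : Continuous (fun τ : ℝ => Mt φ ((σ : ℂ) + (τ : ℂ) * Complex.I)) :=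
    hd.continuous.comp (by fun_prop)
  refine Integrable.mono' (integrable_inv_one_add_sq.const_mul C) hcont.aestronglyMeasurable ?_
  refine Filter.Eventually.of_forall fun τ => ?_
  have hre : ((σ : ℂ) + (τ : ℂ) * Complex.I).re = σ := by simp
  have him : ((σ : ℂ) + (τ : ℂ) * Complex.I).im = τ := by simp
  have h1 := hb ((σ : ℂ) + (τ : ℂ) * Complex.I) (by rw [hre]; exact hσ)
  have h2 : |τ| ≤ ‖(σ : ℂ) + (τ : ℂ) * Complex.I‖ := by
    have := Complex.abs_im_le_norm ((σ : ℂ) + (τ : ℂ) * Complex.I)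
    rwa [him] at this
  have h3 : 1 + τ ^ 2 ≤ (1 + ‖(σ : ℂ) + (τ : ℂ) * Complex.I‖) ^ 2 := by
    have h4 : 0 ≤ |τ| := abs_nonneg τ
    have h5 : τ ^ 2 = |τ| ^ 2 := (sq_abs τ).symm
    rw [h5]
    nlinarith [norm_nonneg ((σ : ℂ) + (τ : ℂ) * Complex.I)]
  have h6 : 0 < 1 + τ ^ 2 := by positivity
  change ‖Mt φ ((σ : ℂ) + (τ : ℂ) * Complex.I)‖ ≤ C * (1 + τ ^ 2)⁻¹
  rw [← div_eq_mul_inv, le_div_iff₀ h6]
  exact (mul_le_mul_of_nonneg_left h3 (norm_nonneg _)).trans h1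

theorem INV (hDEC : DEC_stmt) : INV_stmt := by
  intro φ h σ hσ
  have hint := INV_int hDEC h hσ
  refine ⟨hint, fun u => ?_⟩
  set g : ℝ → ℂ := fun τ : ℝ => Mt φ ((σ : ℂ) + (τ : ℂ) * Complex.I) with hg
  set f : ℝ → ℂ := fun v => (φ v : ℂ) * Complex.exp ((σ : ℂ) * v) with hf
  have hfc : Continuous f := by
    have := h.cont
    rw [hf]
    fun_prop
  have hfs : HasCompactSupport f := by
    have h1 : HasCompactSupport (fun v => (φ v : ℂ)) := h.2.comp_left (g := fun x : ℝ => (x : ℂ)) Complex.ofReal_zero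
    exact h1.mul_right
  have hfi : Integrable f := hfc.integrable_of_hasCompactSupport hfs
  have hpi : (2 * Real.pi) ≠ 0 := by positivity
  have hF : ∀ ξ : ℝ, 𝓕 f ξ = g (-(2 * Real.pi) * ξ) := by
    intro ξ
    rw [Real.fourier_real_eq_integral_exp_smul, hg]
    change _ = ∫ v : ℝ, (φ v : ℂ) * Complex.exp (((σ : ℂ) + ((-(2 * Real.pi) * ξ : ℝ) : ℂ) * Complex.I) * v)
    apply integral_congr_ae
    refine Filter.Eventually.of_forall fun v => ?_
    change Complex.exp (((-2 * Real.pi * v * ξ : ℝ) : ℂ) * Complex.I) • ((φ v : ℂ) * Complex.exp ((σ : ℂ) * v)) =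
      (φ v : ℂ) * Complex.exp (((σ : ℂ) + ((-(2 * Real.pi) * ξ : ℝ) : ℂ) * Complex.I) * v)
    rw [smul_eq_mul]
    have e : Complex.exp (((σ : ℂ) + ((-(2 * Real.pi) * ξ : ℝ) : ℂ) * Complex.I) * v) =
        Complex.exp (((-2 * Real.pi * v * ξ : ℝ) : ℂ) * Complex.I) * Complex.exp ((σ : ℂ) * v) := by
      rw [← Complex.exp_add]
      congr 1
      push_cast
      ring
    rw [e]
    ring
  have hFe : 𝓕 f = fun ξ => g (-(2 * Real.pi) * ξ) := funext hF
  have hFi : Integrable (𝓕 f) := by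
    rw [hFe]
    exact hint.comp_mul_left' (neg_ne_zero.2 hpi)
  have hinv := congrFun (hfc.fourierInv_fourier_eq hfi hFi) u
  rw [Real.fourierInv_eq_fourier_neg, Real.fourier_real_eq_integral_exp_smul, hFe] at hinv
  have e2 : (∫ v : ℝ, Complex.exp (((-2 * Real.pi * v * -u : ℝ) : ℂ) * Complex.I) • g (-(2 * Real.pi) * v)) =
      ∫ v : ℝ, (fun τ : ℝ => Complex.exp (-((τ : ℂ) * Complex.I * u)) * g τ) (-(2 * Real.pi) * v) := by
    apply integral_congr_ae
    refine Filter.Eventually.of_forall fun v => ?_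
    change Complex.exp (((-2 * Real.pi * v * -u : ℝ) : ℂ) * Complex.I) • g (-(2 * Real.pi) * v) =
      Complex.exp (-(((-(2 * Real.pi) * v : ℝ) : ℂ) * Complex.I * u)) * g (-(2 * Real.pi) * v)
    rw [smul_eq_mul]
    congr 2
    push_cast
    ring
  have e3 : (∫ v : ℝ, Complex.exp (((-2 * Real.pi * v * -u : ℝ) : ℂ) * Complex.I) • g (-(2 * Real.pi) * v)) = f u := hinv
  have e7 := Measure.integral_comp_mul_left
    (fun τ : ℝ => Complex.exp (-((τ : ℂ) * Complex.I * u)) * g τ) (-(2 * Real.pi))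
  have e8 : |(-(2 * Real.pi))⁻¹| • (∫ τ : ℝ, Complex.exp (-((τ : ℂ) * Complex.I * u)) * g τ) = f u :=
    e7.symm.trans (e2.symm.trans e3)
  have e4 : |(-(2 * Real.pi))⁻¹| = 1 / (2 * Real.pi) := by
    rw [abs_inv, abs_neg, abs_of_pos (by positivity), one_div]
  rw [e4] at e8
  have e5 : (φ u : ℂ) = Complex.exp (-(σ : ℂ) * u) * f u := by
    rw [hf]
    have : Complex.exp (-(σ : ℂ) * u) * Complex.exp ((σ : ℂ) * u) = 1 := by
      rw [← Complex.exp_add]
      simp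
    calc (φ u : ℂ) = (φ u : ℂ) * (Complex.exp (-(σ : ℂ) * u) * Complex.exp ((σ : ℂ) * u)) := by rw [this, mul_one]
      _ = _ := by ring
  rw [e5, ← e8, Complex.real_smul]
  push_cast
  rw [mul_left_comm, ← integral_const_mul]
  congr 1
  apply integral_congr_ae
  refine Filter.Eventually.of_forall fun τ => ?_
  change Complex.exp (-(σ : ℂ) * u) * (Complex.exp (-((τ : ℂ) * Complex.I * u)) * g τ) =
    g τ * Complex.exp (-((σ : ℂ) + (τ : ℂ) * Complex.I) * u)
  have e6 : Complex.exp (-((σ : ℂ) + (τ : ℂ) * Complex.I) * u) =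
      Complex.exp (-(σ : ℂ) * u) * Complex.exp (-((τ : ℂ) * Complex.I * u)) := by
    rw [← Complex.exp_add]
    congr 1
    ring
  rw [e6]
  ring

end Pool.Agent.SCT
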